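import Mathlib
import Pool.Agent.H447R2.MZ.Alg

set_option autoImplicit false

namespace Pool.Agent.Results.MP_4d52ff_nt.DirectOrLinear

/-- The `ℚ`-span of the multiple zeta values of weight `n` (weight `0` gives `ℚ`, weight `1`
gives `0`). -/
noncomputable def Z (n : ℕ) : Submodule ℚ ℝ :=
  Submodule.span ℚ
    {x : ℝ | ∃ t : ℕ, ∃ k : Fin t → ℕ,
      (∀ i, 1 ≤ k i) ∧ (∀ h : 0 < t, 2 ≤ k ⟨0, h⟩) ∧ (∑ i, k i) = n ∧
      x = ∑' m : {m : Fin t → ℕ // StrictAnti m ∧ ∀ i, 1 ≤ m i},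
            ∏ i, (((m.1 i : ℕ) : ℝ) ^ (k i))⁻¹}

/-- For every `p`: either the sum `Z 0 + ... + Z p` is direct, or the dimensions of the spaces
`Z n` grow at least linearly, with an explicit rate. -/
theorem result (p : ℕ) :
    (∀ z : ℕ → ℝ, (∀ j ≤ p, z j ∈ Z j) → (∑ j ∈ Finset.range (p + 1), z j) = 0 →
      ∀ j ≤ p, z j = 0) ∨
    (∀ n : ℕ, 2 ≤ n →
      (((n - 3 * (n % 2)) / (2 * p) + 1 : ℕ) : Cardinal) ≤ Module.rank ℚ (Z n)) := by
  rcases Pool.Agent.H447R2.MZ.direct_or p with h | ⟨k, hk3, hkp, z, hz, ht⟩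
  · exact Or.inl h
  · right
    intro n hn
    have h1 := Pool.Agent.H447R2.MZ.growth k z hz ht n hn
    refine le_trans ?_ h1
    have h2 : (n - 3 * (n % 2)) / (2 * p) ≤ (n - 3 * (n % 2)) / (2 * k) :=
      Nat.div_le_div_left (by omega) (by omega)
    exact_mod_cast Nat.add_le_add_right h2 1

end Pool.Agent.Results.MP_4d52ff_nt.DirectOrLinear
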