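import Mathlib
import Pool.Agent.H447R2.MZ.Alg

set_option autoImplicit false

namespace Pool.Agent.Results.MP_4d52ff_nt.DirectOrTrdeg

/-- The `ℚ`-span of the multiple zeta values of weight `n` (weight `0` gives `ℚ`, weight `1`
gives `0`). -/
noncomputable def Z (n : ℕ) : Submodule ℚ ℝ :=
  Submodule.span ℚ
    {x : ℝ | ∃ t : ℕ, ∃ k : Fin t → ℕ,
      (∀ i, 1 ≤ k i) ∧ (∀ h : 0 < t, 2 ≤ k ⟨0, h⟩) ∧ (∑ i, k i) = n ∧
      x = ∑' m : {m : Fin t → ℕ // StrictAnti m ∧ ∀ i, 1 ≤ m i},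
            ∏ i, (((m.1 i : ℕ) : ℝ) ^ (k i))⁻¹}

/-- Either all sums `Z 0 + ... + Z p` are direct, or the dimensions of the spaces `Z n` grow
at least like `n ^ s` for every `s` such that there are `s` algebraically independent elements
in the spaces `Z w` (of any weights). -/
theorem result :
    (∀ p : ℕ, ∀ z : ℕ → ℝ, (∀ j ≤ p, z j ∈ Z j) → (∑ j ∈ Finset.range (p + 1), z j) = 0 →
      ∀ j ≤ p, z j = 0) ∨
    (∀ (s : ℕ) (x : Fin s → ℝ), (∀ i, ∃ w, x i ∈ Z w) → AlgebraicIndependent ℚ x →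
      ∃ D : ℕ, 1 ≤ D ∧ ∀ n : ℕ, 2 ≤ n →
        ((((n - 2) / D + 1) ^ s : ℕ) : Cardinal) ≤ Module.rank ℚ (Z n)) := by
  by_cases h : ∀ p, Pool.Agent.H447R2.MZ.Direct p
  · exact Or.inl h
  · right
    push Not at h
    obtain ⟨p, hp⟩ := h
    intro s x hx hind
    obtain ⟨D, hD, hg⟩ := Pool.Agent.H447R2.MZ.growth_of_not_direct p hp s x hx hind
    refine ⟨D, hD, fun n hn => ?_⟩
    have h1 := hg n hn
    have hf : Module.Finite ℚ (Z n) := Pool.Agent.H447R2.MZ.finite_Zs n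
    rw [← Module.finrank_eq_rank]
    exact_mod_cast h1

end Pool.Agent.Results.MP_4d52ff_nt.DirectOrTrdeg
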