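import Pool.Agent.H337R2.LZ.Z
import Pool.Agent.H337R2.LZ.Z4

/-!
# The sum `Z_0 + Z_1 + Z_2 + Z_3` of the weight-graded spaces of multiple zeta values is direct

Equivalently `1, ζ(2), ζ(3)` are linearly independent over `ℚ`; both forms are proved here.
-/

set_option autoImplicit false

namespace Pool.Agent.Results.MP_4d52ff_nt.DirectUpToThree

/-- The case `p ≤ 3` of the directness of `Z_0 + Z_1 + ... + Z_p`, in the words of the frozen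
statement, together with the linear independence over `ℚ` of `1`, `π ^ 2`, `ζ(3)` and of
`1`, `ζ(2)`, `ζ(3)`. -/
theorem result :
    (∀ p : ℕ, p ≤ 3 → ∀ z : ℕ → ℝ,
      (∀ j ≤ p, z j ∈ Submodule.span ℚ
        {x : ℝ | ∃ t : ℕ, ∃ k : Fin t → ℕ,
          (∀ i, 1 ≤ k i) ∧ (∀ h : 0 < t, 2 ≤ k ⟨0, h⟩) ∧ (∑ i, k i) = j ∧
          x = ∑' n : {n : Fin t → ℕ // StrictAnti n ∧ ∀ i, 1 ≤ n i},
                ∏ i, (((n.1 i : ℕ) : ℝ) ^ (k i))⁻¹}) →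
      (∑ j ∈ Finset.range (p + 1), z j) = 0 →
      ∀ j ≤ p, z j = 0) ∧
    LinearIndependent ℚ ![(1 : ℝ), ∑' n : ℕ, 1 / ((n : ℝ) + 1) ^ 2, ∑' n : ℕ, 1 / ((n : ℝ) + 1) ^ 3] ∧
    LinearIndependent ℚ ![(1 : ℝ), Real.pi ^ 2, ∑' n : ℕ, 1 / ((n : ℝ) + 1) ^ 3] := by
  refine ⟨Pool.Agent.LZ.Z4.Z4_direct Pool.Agent.LZ.Z3_linind, Pool.Agent.LZ.Z3_linind, ?_⟩
  have h := Pool.Agent.LZ.Z3_linind
  have hv : Pool.Agent.H337R2.zr 2 = Real.pi ^ 2 / 6 := Pool.Agent.LZ.Z2_value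
  rw [Fintype.linearIndependent_iff] at h ⊢
  intro g hg
  have h1 := h ![g 0, 6 * g 1, g 2] (by
    rw [Fin.sum_univ_three] at hg ⊢
    simp only [Matrix.cons_val_zero, Matrix.cons_val_one, Matrix.cons_val, Rat.smul_def] at hg ⊢
    rw [hv]
    push_cast
    have e : Pool.Agent.H337R2.zr 3 = ∑' n : ℕ, 1 / ((n : ℝ) + 1) ^ 3 := rfl
    rw [e]
    linarith)
  intro i
  fin_cases i
  · simpa using h1 0
  · simpa using h1 1
  · simpa using h1 2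

end Pool.Agent.Results.MP_4d52ff_nt.DirectUpToThree
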