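import Pool.Agent.H387R3.ZF.Z
import Pool.Agent.H387R3.ZF.W4

/-!
# Multiple zeta values of weights `0, 3, 4`: the case `z_2 = 0` of `p = 4`

`1`, `ζ(3)`, `π⁴` are linearly independent over `ℚ`; hence the sum `Z_0 + Z_1 + Z_3 + Z_4` is direct.
-/

set_option autoImplicit false

namespace Pool.Agent.Results.MP_4d52ff_nt.DirectZeroThreeFour

/-- In the words of the frozen statement with `p = 4`: if `z_j` is in the span of the multiple zeta values of weight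
`j` for `j ≤ 4`, the sum is zero and `z_2 = 0`, then all `z_j` vanish; and `1, ζ(3), π ^ 4` (equivalently
`1, ζ(3), ζ(4)`) are linearly independent over `ℚ`. -/
theorem result :
    (∀ z : ℕ → ℝ,
      (∀ j ≤ 4, z j ∈ Submodule.span ℚ
        {x : ℝ | ∃ t : ℕ, ∃ k : Fin t → ℕ,
          (∀ i, 1 ≤ k i) ∧ (∀ h : 0 < t, 2 ≤ k ⟨0, h⟩) ∧ (∑ i, k i) = j ∧
          x = ∑' n : {n : Fin t → ℕ // StrictAnti n ∧ ∀ i, 1 ≤ n i},
                ∏ i, (((n.1 i : ℕ) : ℝ) ^ (k i))⁻¹}) →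
      z 2 = 0 →
      (∑ j ∈ Finset.range 5, z j) = 0 →
      ∀ j ≤ 4, z j = 0) ∧
    LinearIndependent ℚ ![(1 : ℝ), ∑' n : ℕ, 1 / ((n : ℝ) + 1) ^ 3, Real.pi ^ 4] ∧
    LinearIndependent ℚ ![(1 : ℝ), ∑' n : ℕ, 1 / ((n : ℝ) + 1) ^ 3, ∑' n : ℕ, 1 / ((n : ℝ) + 1) ^ 4] := by
  refine ⟨Pool.Agent.ZF.W4_case Pool.Agent.ZF.Z3_linind, ?_, Pool.Agent.ZF.Z3_linind⟩
  have h := Pool.Agent.ZF.Z3_linind
  have hv : Pool.Agent.H337R2.zr 4 = Real.pi ^ 4 / 90 := by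
    have h1 := (hasSum_nat_add_iff' 1).2 hasSum_zeta_four
    rw [Finset.sum_range_one] at h1
    simp only [Nat.cast_zero, ne_eq, OfNat.ofNat_ne_zero, not_false_eq_true, zero_pow, div_zero, sub_zero] at h1
    have h2 : HasSum (fun n : ℕ => 1 / ((n : ℝ) + 1) ^ 4) (Real.pi ^ 4 / 90) := by
      refine h1.congr_fun fun n => ?_
      push_cast
      rfl
    exact h2.tsum_eq
  rw [Fintype.linearIndependent_iff] at h ⊢
  intro g hg
  have h1 := h ![g 0, g 1, 90 * g 2] (by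
    rw [Fin.sum_univ_three] at hg ⊢
    simp only [Matrix.cons_val_zero, Matrix.cons_val_one, Matrix.cons_val, Rat.smul_def] at hg ⊢
    rw [hv]
    push_cast
    have e : Pool.Agent.H337R2.zr 3 = ∑' n : ℕ, 1 / ((n : ℝ) + 1) ^ 3 := rfl
    rw [e]
    linarith)
  intro i
  fin_cases i
  · simpa using h1 0
  · simpa using h1 1
  · simpa using h1 2

end Pool.Agent.Results.MP_4d52ff_nt.DirectZeroThreeFour
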